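import Mathlib

set_option autoImplicit false

/-!
# Averages over finite product spaces
-/

namespace Pool.Agent.H998R2.Avg

open Finset

/-- the average of a real function over a finite type -/
noncomputable def avg {X : Type*} [Fintype X] (f : X → ℝ) : ℝ := (∑ x, f x) / Fintype.card X

lemma avg_equiv {X Y : Type*} [Fintype X] [Fintype Y] (e : X ≃ Y) (f : Y → ℝ) :
    avg (fun x => f (e x)) = avg f := by
  unfold avg
  rw [Equiv.sum_comp e f, Fintype.card_congr e]

lemma avg_prod {X Y : Type*} [Fintype X] [Fintype Y] (f : X × Y → ℝ) :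
    avg f = avg (fun x => avg (fun y => f (x, y))) := by
  unfold avg
  rw [Fintype.sum_prod_type, Fintype.card_prod, ← Finset.sum_div]
  push_cast
  rw [div_div, mul_comm (Fintype.card X : ℝ)]

lemma avg_mono {X : Type*} [Fintype X] {f g : X → ℝ} (h : ∀ x, f x ≤ g x) : avg f ≤ avg g := by
  unfold avg
  exact div_le_div_of_nonneg_right (Finset.sum_le_sum fun x _ => h x) (by positivity)

lemma avg_add {X : Type*} [Fintype X] (f g : X → ℝ) :
    avg (fun x => f x + g x) = avg f + avg g := by
  unfold avg
  rw [Finset.sum_add_distrib, add_div]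

lemma avg_mul_left {X : Type*} [Fintype X] (c : ℝ) (f : X → ℝ) :
    avg (fun x => c * f x) = c * avg f := by
  unfold avg
  rw [← Finset.mul_sum, mul_div_assoc]

lemma avg_sub {X : Type*} [Fintype X] (f g : X → ℝ) :
    avg (fun x => f x - g x) = avg f - avg g := by
  unfold avg
  rw [Finset.sum_sub_distrib, sub_div]

lemma avg_const {X : Type*} [Fintype X] [Nonempty X] (c : ℝ) : avg (fun _ : X => c) = c := by
  unfold avg
  rw [Finset.sum_const, Finset.card_univ, nsmul_eq_mul]
  have : (Fintype.card X : ℝ) ≠ 0 := by exact_mod_cast Fintype.card_ne_zero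
  field_simp

lemma avg_nonneg {X : Type*} [Fintype X] {f : X → ℝ} (h : ∀ x, 0 ≤ f x) : 0 ≤ avg f := by
  unfold avg
  exact div_nonneg (Finset.sum_nonneg fun x _ => h x) (by positivity)

lemma avg_sum {X I : Type*} [Fintype X] (s : Finset I) (f : I → X → ℝ) :
    avg (fun x => ∑ i ∈ s, f i x) = ∑ i ∈ s, avg (f i) := by
  unfold avg
  rw [Finset.sum_comm, Finset.sum_div]

lemma avg_pi {I : Type*} [Fintype I] [DecidableEq I] {X : I → Type*} [∀ i, Fintype (X i)]
    (f : ∀ i, X i → ℝ) :
    avg (fun g : ∀ i, X i => ∏ i, f i (g i)) = ∏ i, avg (f i) := by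
  unfold avg
  rw [Finset.prod_div_distrib, Fintype.card_pi]
  push_cast
  congr 1
  rw [Finset.prod_univ_sum]
  simp

lemma avg_restrict {I J B : Type*} [Fintype I] [Fintype J] [Fintype B] [Nonempty B]
    [DecidableEq I] [DecidableEq J]
    (a : J → I) (ha : Function.Injective a) (f : (J → B) → ℝ) :
    avg (fun x : I → B => f (fun j => x (a j))) = avg f := by
  classical
  let p : I → Prop := fun i => i ∈ Set.range a
  let e1 := Equiv.piEquivPiSubtypeProd p (fun _ => B)
  let e2 : J ≃ {i // p i} := Equiv.ofInjective a ha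
  rw [← avg_equiv e1.symm, avg_prod]
  have h1 : ∀ (x : {i // p i} → B) (y : {i // ¬ p i} → B) (j : J),
      e1.symm (x, y) (a j) = x (e2 j) := by
    intro x y j
    have hp : p (a j) := ⟨j, rfl⟩
    simp only [e1, Equiv.piEquivPiSubtypeProd_symm_apply, hp, dif_pos]
    congr 1
  have h2 : (fun x : {i // p i} → B => avg fun y : {i // ¬ p i} → B =>
      f (fun j => e1.symm (x, y) (a j))) = fun x => f (fun j => x (e2 j)) := by
    funext x
    simp_rw [h1]
    exact avg_const _
  rw [h2]
  have h3 := avg_equiv (Equiv.arrowCongr e2.symm (Equiv.refl B)) f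
  rw [← h3]
  rfl

lemma avg_flip_zero {X : Type*} [Fintype X] (e : X ≃ X) (f : X → ℝ)
    (h : ∀ x, f (e x) = - f x) : avg f = 0 := by
  have h1 := avg_equiv e f
  simp_rw [h] at h1
  have h2 : avg (fun x => - f x) = - avg f := by
    unfold avg
    rw [Finset.sum_neg_distrib, neg_div]
  linarith

end Pool.Agent.H998R2.Avg
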