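import Mathlib

set_option autoImplicit false

/-!
# SparseStack matrices and oblivious subspace injections
-/

namespace Pool.Agent.H998R2.OsiDefs

open Matrix

/-- An outcome of the randomness: for every row `i` and every block `j` the sign of the nonzero
entry and its position inside the block. -/
abbrev Outcome (n ζ b : ℕ) : Type := Fin n → Fin ζ → Bool × Fin b

/-- The SparseStack matrix with `k = b * ζ` columns; the columns are indexed by the pairs
(block, position in the block). Row `i` has in block `j` exactly one nonzero entry,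
equal to plus or minus `1 / sqrt ζ`. -/
noncomputable def sparseStack {n ζ b : ℕ} (ω : Outcome n ζ b) :
    Matrix (Fin n) (Fin ζ × Fin b) ℝ :=
  fun i c => if (ω i c.1).2 = c.2 then (if (ω i c.1).1 then (1 : ℝ) else -1) / Real.sqrt ζ else 0

/-- The squared Euclidean norm of a real vector. -/
noncomputable def normSq {ι : Type} [Fintype ι] (x : ι → ℝ) : ℝ := ∑ i, x i ^ 2

/-- The probability of an event when all signs and all positions are independent and uniform, that
is, the uniform law on the finite product of all signs and positions. -/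
noncomputable def prob {n ζ b : ℕ} (S : Set (Outcome n ζ b)) : ℝ :=
  (Nat.card S : ℝ) / (Nat.card (Outcome n ζ b) : ℝ)

/-- Injectivity on the subspace `V`: `α ‖x‖² ≤ ‖Ωᵀ x‖²` for all `x ∈ V`. -/
def InjectiveOn {n ζ b : ℕ} (ω : Outcome n ζ b) (V : Submodule ℝ (Fin n → ℝ)) (α : ℝ) : Prop :=
  ∀ x ∈ V, α * normSq x ≤ normSq ((sparseStack ω)ᵀ.mulVec x)

/-- The SparseStack with `ζ` blocks of width `b` is an oblivious subspace injection for
`r`-dimensional subspaces of `ℝ^n` with parameter `α` and failure probability `δ`: for every
`r`-dimensional subspace `V`, with probability at least `1 - δ`, `α ‖x‖² ≤ ‖Ωᵀ x‖²` for all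
`x ∈ V`. -/
def IsOSI (n ζ b r : ℕ) (α δ : ℝ) : Prop :=
  ∀ V : Submodule ℝ (Fin n → ℝ), Module.finrank ℝ V = r →
    1 - δ ≤ prob {ω : Outcome n ζ b | InjectiveOn ω V α}

end Pool.Agent.H998R2.OsiDefs
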