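import Mathlib
import Pool.Agent.H998R2.Avg

set_option autoImplicit false

/-!
# Existence of rich pockets: second moment computation
-/

namespace Pool.Agent.H998R2.Pocket

open Finset Pool.Agent.H998R2.Avg

/-- indicator -/
noncomputable def ind (P : Prop) [Decidable P] : ℝ := if P then 1 else 0

lemma ind_nonneg (P : Prop) [Decidable P] : 0 ≤ ind P := by unfold ind; split_ifs <;> norm_num
lemma ind_le_one (P : Prop) [Decidable P] : ind P ≤ 1 := by unfold ind; split_ifs <;> norm_num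

lemma avg_eq {b : ℕ} (x : Fin b) : avg (fun y : Fin b => ind (y = x)) = 1 / b := by
  unfold avg ind
  simp

lemma avg_ne {b : ℕ} (x : Fin b) :
    avg (fun y : Fin b => ind (y ≠ x)) = 1 - 1 / b := by
  have : Nonempty (Fin b) := ⟨x⟩
  have h : (fun y : Fin b => ind (y ≠ x)) = fun y => 1 - ind (y = x) := by
    funext y; unfold ind; by_cases h : y = x <;> simp [h]
  rw [h, avg_sub (fun _ => (1:ℝ)), avg_const, avg_eq]

lemma avg_ne2 {b : ℕ} (x x' : Fin b) (hx : x ≠ x') :
    avg (fun y : Fin b => ind (y ≠ x ∧ y ≠ x')) = 1 - 2 / b := by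
  have : Nonempty (Fin b) := ⟨x⟩
  have h : (fun y : Fin b => ind (y ≠ x ∧ y ≠ x')) = fun y => (1 - ind (y = x)) - ind (y = x') := by
    funext y; unfold ind
    by_cases h : y = x
    · subst h; simp [hx]
    · by_cases h' : y = x'
      · subst h'; simp [h]
      · simp [h, h']
  rw [h, avg_sub (fun y => 1 - ind (y = x)), avg_sub (fun _ => (1:ℝ)), avg_const, avg_eq,
    avg_eq]
  ring

lemma ind_forall {m b : ℕ} (Q : Fin b → Prop) [DecidablePred Q] (g : Fin m → Fin b) :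
    ind (∀ u, Q (g u)) = ∏ u, ind (Q (g u)) := by
  unfold ind
  by_cases h : ∀ u, Q (g u)
  · simp [h]
  · rw [if_neg h]
    push Not at h
    obtain ⟨u, hu⟩ := h
    rw [Finset.prod_eq_zero (Finset.mem_univ u)]
    simp [hu]

lemma avg_miss {m b : ℕ} (x : Fin b) :
    avg (fun g : Fin m → Fin b => ind (∀ u, g u ≠ x)) = (1 - 1 / (b:ℝ)) ^ m := by
  simp_rw [ind_forall (fun y => y ≠ x)]
  rw [avg_pi (fun _ y => ind (y ≠ x)), Finset.prod_const, avg_ne]
  simp

lemma avg_miss2 {m b : ℕ} (x x' : Fin b) (hx : x ≠ x') :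
    avg (fun g : Fin m → Fin b => ind (∀ u, g u ≠ x ∧ g u ≠ x')) = (1 - 2 / (b:ℝ)) ^ m := by
  simp_rw [ind_forall (fun y => y ≠ x ∧ y ≠ x')]
  rw [avg_pi (fun _ y => ind (y ≠ x ∧ y ≠ x')), Finset.prod_const, avg_ne2 x x' hx]
  simp

/-- probability that `m` balls hit a given bin -/
noncomputable def hit (m b : ℕ) : ℝ := 1 - (1 - 1 / (b:ℝ)) ^ m

lemma avg_hit {m b : ℕ} (x : Fin b) :
    avg (fun g : Fin m → Fin b => ind (∃ u, g u = x)) = hit m b := by
  have : Nonempty (Fin b) := ⟨x⟩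
  have h : (fun g : Fin m → Fin b => ind (∃ u, g u = x)) =
      fun g => 1 - ind (∀ u, g u ≠ x) := by
    funext g; unfold ind
    by_cases h : ∃ u, g u = x
    · have : ¬ ∀ u, g u ≠ x := by push Not; exact h
      rw [if_pos h, if_neg this]; norm_num
    · have : ∀ u, g u ≠ x := by push Not at h; exact h
      rw [if_neg h, if_pos this]; norm_num
  rw [h, avg_sub (fun _ => (1:ℝ)), avg_const, avg_miss]
  rfl

lemma hit_nonneg {m b : ℕ} (hb : 1 ≤ b) : 0 ≤ hit m b := by
  unfold hit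
  have h1 : (0:ℝ) ≤ 1 - 1 / (b:ℝ) := by
    have : (1:ℝ) ≤ b := by exact_mod_cast hb
    rw [sub_nonneg, div_le_one (by linarith)]; exact this
  have h2 : (1:ℝ) - 1 / (b:ℝ) ≤ 1 := by
    have : (0:ℝ) ≤ 1 / (b:ℝ) := by positivity
    linarith
  have := pow_le_one₀ h1 h2 (n := m)
  linarith

lemma hit_le_one {m b : ℕ} (hb : 1 ≤ b) : hit m b ≤ 1 := by
  unfold hit
  have h1 : (0:ℝ) ≤ 1 - 1 / (b:ℝ) := by
    have : (1:ℝ) ≤ b := by exact_mod_cast hb
    rw [sub_nonneg, div_le_one (by linarith)]; exact this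
  have := pow_nonneg h1 m
  linarith

lemma avg_hit2 {m b : ℕ} (hb : 1 ≤ b) (x x' : Fin b) (hx : x ≠ x') :
    avg (fun g : Fin m → Fin b => ind ((∃ u, g u = x) ∧ (∃ u, g u = x'))) ≤ hit m b ^ 2 := by
  have : Nonempty (Fin b) := ⟨x⟩
  have hb2 : 2 ≤ b := by
    by_contra hlt
    have : b = 1 := by omega
    subst this
    exact hx (Subsingleton.elim _ _)
  have h : (fun g : Fin m → Fin b => ind ((∃ u, g u = x) ∧ (∃ u, g u = x'))) =
      fun g => ((1 - ind (∀ u, g u ≠ x)) - ind (∀ u, g u ≠ x')) +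
        ind (∀ u, g u ≠ x ∧ g u ≠ x') := by
    funext g; unfold ind
    have e1 : (∀ u, g u ≠ x) ↔ ¬ ∃ u, g u = x := by push Not; rfl
    have e2 : (∀ u, g u ≠ x') ↔ ¬ ∃ u, g u = x' := by push Not; rfl
    have e3 : (∀ u, g u ≠ x ∧ g u ≠ x') ↔ (¬ ∃ u, g u = x) ∧ (¬ ∃ u, g u = x') := by
      rw [← e1, ← e2, forall_and]
    simp only [e1, e2, e3]
    by_cases h1 : ∃ u, g u = x <;> by_cases h2 : ∃ u, g u = x' <;> simp [h1, h2]
  rw [h, avg_add, avg_sub (fun g : Fin m → Fin b => 1 - ind (∀ u, g u ≠ x)),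
    avg_sub (fun _ : Fin m → Fin b => (1:ℝ)), avg_const,
    avg_miss, avg_miss, avg_miss2 x x' hx]
  unfold hit
  have h3 : (1 - 2 / (b:ℝ)) ^ m ≤ ((1 - 1 / (b:ℝ)) ^ 2) ^ m := by
    apply pow_le_pow_left₀
    · have : (2:ℝ) ≤ b := by exact_mod_cast hb2
      rw [sub_nonneg, div_le_one (by linarith)]; exact this
    · have : (0:ℝ) ≤ (1 / (b:ℝ)) ^ 2 := by positivity
      have e : (1 - 1 / (b:ℝ)) ^ 2 = 1 - 2 / (b:ℝ) + (1 / (b:ℝ)) ^ 2 := by ring
      linarith
  have h4 : ((1 - 1 / (b:ℝ)) ^ 2) ^ m = ((1 - 1 / (b:ℝ)) ^ m) ^ 2 := by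
    rw [← pow_mul, ← pow_mul, mul_comm]
  rw [h4] at h3
  nlinarith

/-- index set of the used positions -/
abbrev J (ζ M K m : ℕ) : Type := (Fin K × Fin ζ) ⊕ ((Fin ζ × Fin M) × Fin m)

/-- the center `κ` is rich: all its bins are hit by all groups of fillers -/
def Rich {ζ M K m b : ℕ} (y : J ζ M K m → Fin b) (κ : Fin K) : Prop :=
  ∀ t : Fin ζ × Fin M, ∃ u : Fin m, y (Sum.inr (t, u)) = y (Sum.inl (κ, t.1))

instance {ζ M K m b : ℕ} (y : J ζ M K m → Fin b) (κ : Fin K) : Decidable (Rich y κ) := by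
  unfold Rich; infer_instance

lemma avg_split {ζ M K m b : ℕ} (f : (J ζ M K m → Fin b) → ℝ) :
    avg f = avg (fun c : Fin K × Fin ζ → Fin b =>
      avg (fun F : Fin ζ × Fin M → Fin m → Fin b =>
        f (Sum.elim c (fun q => F q.1 q.2)))) := by
  rw [← avg_equiv (Equiv.sumArrowEquivProdArrow (Fin K × Fin ζ) ((Fin ζ × Fin M) × Fin m)
    (Fin b)).symm, avg_prod]
  congr 1
  funext c
  rw [← avg_equiv (Equiv.curry (Fin ζ × Fin M) (Fin m) (Fin b)).symm]
  rfl

lemma ind_prod {I : Type*} [Fintype I] (Q : I → Prop) [DecidablePred Q] [Decidable (∀ t, Q t)] :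
    ind (∀ t, Q t) = ∏ t, ind (Q t) := by
  unfold ind
  by_cases h : ∀ t, Q t
  · simp [h]
  · rw [if_neg h]
    push Not at h
    obtain ⟨u, hu⟩ := h
    rw [Finset.prod_eq_zero (Finset.mem_univ u)]
    simp [hu]

lemma avg_rich {ζ M K m b : ℕ} (hb : 1 ≤ b) (κ : Fin K) :
    avg (fun y : J ζ M K m → Fin b => ind (Rich y κ)) = hit m b ^ (ζ * M) := by
  have : Nonempty (Fin b) := ⟨⟨0, hb⟩⟩
  rw [avg_split]
  have h : ∀ c : Fin K × Fin ζ → Fin b,
      avg (fun F : Fin ζ × Fin M → Fin m → Fin b =>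
        ind (Rich (Sum.elim c (fun q => F q.1 q.2)) κ)) = hit m b ^ (ζ * M) := by
    intro c
    have h1 : ∀ F : Fin ζ × Fin M → Fin m → Fin b,
        ind (Rich (Sum.elim c (fun q => F q.1 q.2)) κ) =
          ∏ t, ind (∃ u, F t u = c (κ, t.1)) := by
      intro F
      rw [← ind_prod]
      rfl
    simp_rw [h1]
    rw [avg_pi (fun (t : Fin ζ × Fin M) (g : Fin m → Fin b) => ind (∃ u, g u = c (κ, t.1)))]
    simp_rw [avg_hit]
    simp
  simp_rw [h]
  exact avg_const _

lemma avg_coll {I : Type*} [Fintype I] [DecidableEq I] {b : ℕ} (hb : 1 ≤ b) (i i' : I)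
    (hi : i ≠ i') : avg (fun c : I → Fin b => ind (c i = c i')) = 1 / b := by
  have : Nonempty (Fin b) := ⟨⟨0, hb⟩⟩
  have h := avg_restrict (I := I) (J := Bool) (B := Fin b) (fun t => if t then i else i')
    (by
      intro s t hst
      cases s <;> cases t <;> simp_all) (fun y => ind (y true = y false))
  simp only [if_true, Bool.false_eq_true, if_false] at h
  rw [h, ← avg_equiv (Equiv.boolArrowEquivProd (Fin b)).symm, avg_prod]
  have h2 : ∀ x : Fin b, avg (fun y : Fin b => ind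
      ((Equiv.boolArrowEquivProd (Fin b)).symm (x, y) true =
        (Equiv.boolArrowEquivProd (Fin b)).symm (x, y) false)) = 1 / b := by
    intro x
    exact avg_eq x
  simp_rw [h2]
  exact avg_const _

lemma avg_rich2 {ζ M K m b : ℕ} (hb : 1 ≤ b) (κ κ' : Fin K) (hκ : κ ≠ κ') :
    avg (fun y : J ζ M K m → Fin b => ind (Rich y κ) * ind (Rich y κ')) ≤
      (hit m b ^ (ζ * M)) ^ 2 + ζ / b := by
  have : Nonempty (Fin b) := ⟨⟨0, hb⟩⟩
  rw [avg_split]
  have h : ∀ c : Fin K × Fin ζ → Fin b,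
      avg (fun F : Fin ζ × Fin M → Fin m → Fin b =>
        ind (Rich (Sum.elim c (fun q => F q.1 q.2)) κ) *
          ind (Rich (Sum.elim c (fun q => F q.1 q.2)) κ')) ≤
        (hit m b ^ (ζ * M)) ^ 2 + ∑ j : Fin ζ, ind (c (κ, j) = c (κ', j)) := by
    intro c
    by_cases hc : ∀ j, c (κ, j) ≠ c (κ', j)
    · have h1 : ∀ F : Fin ζ × Fin M → Fin m → Fin b,
        ind (Rich (Sum.elim c (fun q => F q.1 q.2)) κ) *
          ind (Rich (Sum.elim c (fun q => F q.1 q.2)) κ') =
          ∏ t, ind ((∃ u, F t u = c (κ, t.1)) ∧ (∃ u, F t u = c (κ', t.1))) := by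
        intro F
        rw [← ind_prod]
        unfold ind
        have e : (∀ t : Fin ζ × Fin M, (∃ u, F t u = c (κ, t.1)) ∧ (∃ u, F t u = c (κ', t.1))) ↔
          Rich (Sum.elim c (fun q => F q.1 q.2)) κ ∧
            Rich (Sum.elim c (fun q => F q.1 q.2)) κ' := by
          rw [forall_and]
          rfl
        simp only [e]
        by_cases h1 : Rich (Sum.elim c (fun q => F q.1 q.2)) κ <;>
          by_cases h2 : Rich (Sum.elim c (fun q => F q.1 q.2)) κ' <;> simp [h1, h2]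
      simp_rw [h1]
      rw [avg_pi (fun (t : Fin ζ × Fin M) (g : Fin m → Fin b) =>
        ind ((∃ u, g u = c (κ, t.1)) ∧ (∃ u, g u = c (κ', t.1))))]
      have h2 : ∏ t : Fin ζ × Fin M, avg (fun g : Fin m → Fin b =>
        ind ((∃ u, g u = c (κ, t.1)) ∧ (∃ u, g u = c (κ', t.1)))) ≤
          ∏ t : Fin ζ × Fin M, hit m b ^ 2 := by
        apply Finset.prod_le_prod
        · intro t _
          exact avg_nonneg fun _ => ind_nonneg _
        · intro t _
          exact avg_hit2 hb _ _ (hc t.1)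
      refine h2.trans ?_
      have h3 : ∏ t : Fin ζ × Fin M, hit m b ^ 2 = (hit m b ^ (ζ * M)) ^ 2 := by
        simp only [prod_const, card_univ, Fintype.card_prod, Fintype.card_fin]
        ring
      rw [h3]
      have h4 : 0 ≤ ∑ j : Fin ζ, ind (c (κ, j) = c (κ', j)) :=
        Finset.sum_nonneg fun j _ => ind_nonneg _
      linarith
    · push Not at hc
      obtain ⟨j, hj⟩ := hc
      have h1 : avg (fun F : Fin ζ × Fin M → Fin m → Fin b =>
        ind (Rich (Sum.elim c (fun q => F q.1 q.2)) κ) *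
          ind (Rich (Sum.elim c (fun q => F q.1 q.2)) κ')) ≤
            avg (fun _ : Fin ζ × Fin M → Fin m → Fin b => (1:ℝ)) := by
        apply avg_mono
        intro F
        exact mul_le_one₀ (ind_le_one _) (ind_nonneg _) (ind_le_one _)
      rw [avg_const] at h1
      have h2 : ind (c (κ, j) = c (κ', j)) ≤ ∑ j : Fin ζ, ind (c (κ, j) = c (κ', j)) :=
        Finset.single_le_sum (f := fun j => ind (c (κ, j) = c (κ', j)))
          (fun j _ => ind_nonneg _) (Finset.mem_univ j)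
      have h3 : ind (c (κ, j) = c (κ', j)) = 1 := by unfold ind; simp [hj]
      have h4 : (0:ℝ) ≤ (hit m b ^ (ζ * M)) ^ 2 := by positivity
      linarith
  refine (avg_mono h).trans ?_
  rw [avg_add (fun _ => (hit m b ^ (ζ * M)) ^ 2), avg_const,
    avg_sum Finset.univ (fun j (c : Fin K × Fin ζ → Fin b) => ind (c (κ, j) = c (κ', j)))]
  have h5 : ∀ j : Fin ζ, avg (fun c : Fin K × Fin ζ → Fin b => ind (c (κ, j) = c (κ', j))) =
      1 / b := by
    intro j
    apply avg_coll hb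
    intro h
    exact hκ (Prod.ext_iff.1 h).1
  simp_rw [h5]
  rw [Finset.sum_const, Finset.card_univ, Fintype.card_fin, nsmul_eq_mul]
  apply le_of_eq
  ring

/-- the probability that no center is rich -/
theorem avg_norich {ζ M K m b : ℕ} (hb : 1 ≤ b) :
    (K * hit m b ^ (ζ * M)) ^ 2 *
      avg (fun y : J ζ M K m → Fin b => ind (∀ κ : Fin K, ¬ Rich y κ)) ≤
      K * hit m b ^ (ζ * M) + K ^ 2 * (ζ / b) := by
  have : Nonempty (Fin b) := ⟨⟨0, hb⟩⟩
  set p := hit m b ^ (ζ * M) with hp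
  have hp0 : 0 ≤ p := pow_nonneg (hit_nonneg hb) _
  have h1 : ∀ y : J ζ M K m → Fin b, (K * p) ^ 2 * ind (∀ κ : Fin K, ¬ Rich y κ) ≤
      (∑ κ : Fin K, ∑ κ' : Fin K, ind (Rich y κ) * ind (Rich y κ')) -
        (2 * (K * p)) * (∑ κ : Fin K, ind (Rich y κ)) + (K * p) ^ 2 := by
    intro y
    have e : (∑ κ : Fin K, ∑ κ' : Fin K, ind (Rich y κ) * ind (Rich y κ')) =
      (∑ κ : Fin K, ind (Rich y κ)) ^ 2 := by
      rw [sq, Finset.sum_mul_sum]
    rw [e]
    by_cases h : ∀ κ : Fin K, ¬ Rich y κ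
    · have h2 : ∑ κ : Fin K, ind (Rich y κ) = 0 :=
        Finset.sum_eq_zero fun κ _ => by unfold ind; simp [h κ]
      rw [h2]
      have : ind (∀ κ : Fin K, ¬ Rich y κ) = 1 := by unfold ind; rw [if_pos h]
      rw [this]
      apply le_of_eq
      ring
    · have : ind (∀ κ : Fin K, ¬ Rich y κ) = 0 := by unfold ind; rw [if_neg h]
      rw [this]
      nlinarith [sq_nonneg ((∑ κ : Fin K, ind (Rich y κ)) - K * p)]
  have h2 := avg_mono h1
  rw [avg_mul_left, avg_add, avg_sub (fun y : J ζ M K m → Fin b =>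
    ∑ κ : Fin K, ∑ κ' : Fin K, ind (Rich y κ) * ind (Rich y κ')), avg_const, avg_mul_left] at h2
  refine h2.trans ?_
  have h3 : avg (fun y : J ζ M K m → Fin b => ∑ κ : Fin K, ind (Rich y κ)) = K * p := by
    rw [avg_sum Finset.univ (fun κ (y : J ζ M K m → Fin b) => ind (Rich y κ))]
    simp_rw [avg_rich hb]
    simp [hp]
  have h4 : avg (fun y : J ζ M K m → Fin b =>
      ∑ κ : Fin K, ∑ κ' : Fin K, ind (Rich y κ) * ind (Rich y κ')) ≤
      K * p + K ^ 2 * (p ^ 2 + ζ / b) := by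
    rw [avg_sum Finset.univ (fun κ (y : J ζ M K m → Fin b) =>
      ∑ κ' : Fin K, ind (Rich y κ) * ind (Rich y κ'))]
    have h5 : ∀ κ : Fin K, avg (fun y : J ζ M K m → Fin b =>
        ∑ κ' : Fin K, ind (Rich y κ) * ind (Rich y κ')) ≤ p + K * (p ^ 2 + ζ / b) := by
      intro κ
      rw [avg_sum Finset.univ (fun κ' (y : J ζ M K m → Fin b) =>
        ind (Rich y κ) * ind (Rich y κ'))]
      have h6 : ∀ κ' : Fin K, avg (fun y : J ζ M K m → Fin b => ind (Rich y κ) * ind (Rich y κ')) ≤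
          (if κ' = κ then p else 0) + (p ^ 2 + ζ / b) := by
        intro κ'
        have hz : (0:ℝ) ≤ p ^ 2 + ζ / b := by positivity
        by_cases hk : κ' = κ
        · subst hk
          rw [if_pos rfl]
          have : (fun y : J ζ M K m → Fin b => ind (Rich y κ') * ind (Rich y κ')) =
              fun y => ind (Rich y κ') := by
            funext y; unfold ind; split_ifs <;> norm_num
          rw [this, avg_rich hb]
          linarith
        · rw [if_neg hk, zero_add]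
          exact avg_rich2 hb κ κ' (Ne.symm hk)
      refine (Finset.sum_le_sum fun κ' _ => h6 κ').trans ?_
      rw [Finset.sum_add_distrib]
      simp only [Finset.sum_ite_eq', Finset.mem_univ, if_true, Finset.sum_const, Finset.card_univ,
        Fintype.card_fin, nsmul_eq_mul]
      exact le_refl _
    refine (Finset.sum_le_sum fun κ _ => h5 κ).trans ?_
    rw [Finset.sum_const, Finset.card_univ, Fintype.card_fin, nsmul_eq_mul]
    apply le_of_eq
    ring
  rw [h3]
  nlinarith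

end Pool.Agent.H998R2.Pocket
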