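import Mathlib
import Pool.Agent.H998R2.Avg

set_option autoImplicit false

/-!
# Averages over independent signs
-/

namespace Pool.Agent.H998R2.Signs

open Finset Pool.Agent.H998R2.Avg

/-- the real sign of a bit -/
noncomputable def sg (s : Bool) : ℝ := if s then 1 else -1

lemma sg_sq (s : Bool) : sg s * sg s = 1 := by unfold sg; split_ifs <;> norm_num
lemma sg_not (s : Bool) : sg (!s) = - sg s := by unfold sg; cases s <;> norm_num

/-- flip one sign -/
def flip {n ζ : ℕ} (i : Fin n) (j : Fin ζ) (s : Fin n → Fin ζ → Bool) : Fin n → Fin ζ → Bool :=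
  fun i' j' => if i' = i ∧ j' = j then !(s i' j') else s i' j'

lemma flip_flip {n ζ : ℕ} (i : Fin n) (j : Fin ζ) (s : Fin n → Fin ζ → Bool) :
    flip i j (flip i j s) = s := by
  funext i' j'
  unfold flip
  split_ifs <;> simp

/-- flip as an equivalence -/
def flipE {n ζ : ℕ} (i : Fin n) (j : Fin ζ) :
    (Fin n → Fin ζ → Bool) ≃ (Fin n → Fin ζ → Bool) where
  toFun := flip i j
  invFun := flip i j
  left_inv := flip_flip i j
  right_inv := flip_flip i j

lemma flip_same {n ζ : ℕ} (i : Fin n) (j : Fin ζ) (s : Fin n → Fin ζ → Bool) :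
    flip i j s i j = !(s i j) := by unfold flip; simp

lemma flip_ne {n ζ : ℕ} (i i' : Fin n) (j j' : Fin ζ) (s : Fin n → Fin ζ → Bool)
    (h : ¬ (i' = i ∧ j' = j)) : flip i j s i' j' = s i' j' := by unfold flip; simp [h]

lemma avg_sq_sum {n ζ : ℕ} {T : Type} [Fintype T] [DecidableEq T] (f : T → Fin n)
    (hf : Function.Injective f) (own : T → Fin ζ) (o : Fin n) (ho : ∀ t, f t ≠ o) (j' : Fin ζ)
    (w : T → ℝ) (hw : ∀ t, own t = j' → w t = 0) :
    avg (fun s : Fin n → Fin ζ → Bool =>
      (∑ t, w t * (sg (s o (own t)) * sg (s (f t) (own t)) * sg (s (f t) j'))) ^ 2) =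
      ∑ t, w t ^ 2 := by
  have h1 : ∀ s : Fin n → Fin ζ → Bool,
      (∑ t, w t * (sg (s o (own t)) * sg (s (f t) (own t)) * sg (s (f t) j'))) ^ 2 =
      ∑ t, ∑ t', (w t * w t') * ((sg (s o (own t)) * sg (s (f t) (own t)) * sg (s (f t) j')) *
        (sg (s o (own t')) * sg (s (f t') (own t')) * sg (s (f t') j'))) := by
    intro s
    rw [sq, Finset.sum_mul_sum]
    refine Finset.sum_congr rfl fun t _ => Finset.sum_congr rfl fun t' _ => ?_
    ring
  simp_rw [h1]
  rw [avg_sum Finset.univ (fun t (s : Fin n → Fin ζ → Bool) =>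
    ∑ t', (w t * w t') * ((sg (s o (own t)) * sg (s (f t) (own t)) * sg (s (f t) j')) *
        (sg (s o (own t')) * sg (s (f t') (own t')) * sg (s (f t') j'))))]
  refine Finset.sum_congr rfl fun t _ => ?_
  rw [avg_sum Finset.univ (fun t' (s : Fin n → Fin ζ → Bool) =>
    (w t * w t') * ((sg (s o (own t)) * sg (s (f t) (own t)) * sg (s (f t) j')) *
        (sg (s o (own t')) * sg (s (f t') (own t')) * sg (s (f t') j'))))]
  rw [Finset.sum_eq_single t]
  · have h2 : ∀ s : Fin n → Fin ζ → Bool,
        (w t * w t) * ((sg (s o (own t)) * sg (s (f t) (own t)) * sg (s (f t) j')) *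
        (sg (s o (own t)) * sg (s (f t) (own t)) * sg (s (f t) j'))) = w t ^ 2 := by
      intro s
      have a := sg_sq (s o (own t))
      have b := sg_sq (s (f t) (own t))
      have c := sg_sq (s (f t) j')
      calc (w t * w t) * ((sg (s o (own t)) * sg (s (f t) (own t)) * sg (s (f t) j')) *
        (sg (s o (own t)) * sg (s (f t) (own t)) * sg (s (f t) j'))) =
          w t ^ 2 * ((sg (s o (own t)) * sg (s o (own t))) *
            (sg (s (f t) (own t)) * sg (s (f t) (own t))) * (sg (s (f t) j') * sg (s (f t) j'))) := by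
            ring
        _ = w t ^ 2 := by rw [a, b, c]; ring
    simp_rw [h2]
    exact avg_const _
  · intro t' _ ht
    by_cases hz : w t = 0 ∨ w t' = 0
    · have : w t * w t' = 0 := mul_eq_zero.2 hz
      simp_rw [this, zero_mul]
      exact avg_const _
    push Not at hz
    have hot : own t ≠ j' := fun h => hz.1 (hw t h)
    have hot' : own t' ≠ j' := fun h => hz.2 (hw t' h)
    apply avg_flip_zero (flipE (f t) j')
    intro s
    have e1 : (flipE (f t) j') s o (own t) = s o (own t) :=
      flip_ne _ _ _ _ _ (fun h => ho t h.1.symm)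
    have e2 : (flipE (f t) j') s (f t) (own t) = s (f t) (own t) :=
      flip_ne _ _ _ _ _ (fun h => hot h.2)
    have e3 : (flipE (f t) j') s (f t) j' = !(s (f t) j') := flip_same _ _ _
    have e4 : (flipE (f t) j') s o (own t') = s o (own t') :=
      flip_ne _ _ _ _ _ (fun h => ho t h.1.symm)
    have e5 : (flipE (f t) j') s (f t') (own t') = s (f t') (own t') :=
      flip_ne _ _ _ _ _ (fun h => ht (hf h.1))
    have e6 : (flipE (f t) j') s (f t') j' = s (f t') j' :=
      flip_ne _ _ _ _ _ (fun h => ht (hf h.1))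
    rw [e1, e2, e3, e4, e5, e6, sg_not]
    ring
  · intro h
    exact absurd (Finset.mem_univ t) h

end Pool.Agent.H998R2.Signs
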