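import Mathlib
import Pool.Agent.H998R2.Avg
import Pool.Agent.H998R2.Pocket
import Pool.Agent.H998R2.Signs
import Pool.Agent.H998R2.OsiDefs

set_option autoImplicit false

/-!
# SparseStacks: the image of the pocket vector
-/

namespace Pool.Agent.H998R2.OsiCore

open Finset Matrix Pool.Agent.H998R2.Avg Pool.Agent.H998R2.Pocket Pool.Agent.H998R2.Signs
  Pool.Agent.H998R2.OsiDefs

/-- combine signs and positions -/
def comb {n ζ b : ℕ} (s : Fin n → Fin ζ → Bool) (q : Fin n → Fin ζ → Fin b) : Outcome n ζ b :=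
  fun i j => (s i j, q i j)

/-- signs and positions -/
def combE (n ζ b : ℕ) : ((Fin n → Fin ζ → Fin b) × (Fin n → Fin ζ → Bool)) ≃ Outcome n ζ b where
  toFun x := comb x.2 x.1
  invFun ω := (fun i j => (ω i j).2, fun i j => (ω i j).1)
  left_inv _ := rfl
  right_inv _ := rfl

/-- the pocket vector -/
noncomputable def pv {n ζ : ℕ} (M : ℕ) (f : Fin ζ × Fin M → Fin n) (o : Fin n)
    (s : Fin n → Fin ζ → Bool) : Fin n → ℝ :=
  fun i => (if i = o then 1 else 0) -
    ∑ t, (if i = f t then (1 / (M:ℝ)) * (sg (s o t.1) * sg (s (f t) t.1)) else 0)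

lemma pv_image {n ζ b M : ℕ} (hM : 1 ≤ M) (f : Fin ζ × Fin M → Fin n) (o : Fin n)
    (q : Fin n → Fin ζ → Fin b) (hq : ∀ t, q (f t) t.1 = q o t.1)
    (s : Fin n → Fin ζ → Bool) (j' : Fin ζ) (c : Fin b) :
    ((sparseStack (comb s q))ᵀ.mulVec (pv M f o s)) (j', c) =
      ∑ t, (if t.1 = j' then 0 else
        if q (f t) j' = c then -(1 / ((M:ℝ) * Real.sqrt ζ)) else 0) *
        (sg (s o t.1) * sg (s (f t) t.1) * sg (s (f t) j')) := by
  have hM' : (M:ℝ) ≠ 0 := by
    have : 0 < M := by omega
    exact_mod_cast this.ne'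
  have h1 : ((sparseStack (comb s q))ᵀ.mulVec (pv M f o s)) (j', c) =
      (sparseStack (comb s q)) o (j', c) -
        ∑ t, (sparseStack (comb s q)) (f t) (j', c) *
          ((1 / (M:ℝ)) * (sg (s o t.1) * sg (s (f t) t.1))) := by
    unfold Matrix.mulVec dotProduct pv
    simp only [Matrix.transpose_apply, mul_sub, Finset.sum_sub_distrib, Finset.mul_sum]
    congr 1
    · simp
    · rw [Finset.sum_comm]
      refine Finset.sum_congr rfl fun t _ => ?_
      simp
  rw [h1]
  have h2 : ∀ i : Fin n, (sparseStack (comb s q)) i (j', c) =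
      if q i j' = c then sg (s i j') / Real.sqrt ζ else 0 := by
    intro i; rfl
  simp_rw [h2]
  have h3 : (if q o j' = c then sg (s o j') / Real.sqrt ζ else 0) =
      ∑ t : Fin ζ × Fin M, (if t.1 = j' then
        (if q o j' = c then (1 / (M:ℝ)) * (sg (s o j') / Real.sqrt ζ) else 0) else 0) := by
    rw [Fintype.sum_prod_type]
    rw [Finset.sum_eq_single j']
    · simp only [if_true, Finset.sum_const, Finset.card_univ, Fintype.card_fin, nsmul_eq_mul]
      split_ifs
      · field_simp
      · ring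
    · intro j _ hj
      simp [hj]
    · intro h
      exact absurd (Finset.mem_univ _) h
  rw [h3, ← Finset.sum_sub_distrib]
  refine Finset.sum_congr rfl fun t _ => ?_
  by_cases ht : t.1 = j'
  · rw [if_pos ht, if_pos ht, zero_mul]
    subst ht
    rw [hq t]
    split_ifs
    · have := sg_sq (s (f t) t.1)
      have e : sg (s (f t) t.1) / Real.sqrt ζ * (1 / (M:ℝ) * (sg (s o t.1) * sg (s (f t) t.1))) =
        (1 / (M:ℝ)) * (sg (s o t.1) / Real.sqrt ζ) * (sg (s (f t) t.1) * sg (s (f t) t.1)) := by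
        ring
      rw [e, this]
      ring
    · ring
  · rw [if_neg ht, if_neg ht]
    split_ifs
    · field_simp
      ring
    · ring

/-- average over the signs of the squared norm of the image of the pocket vector -/
theorem avg_image {n ζ b M : ℕ} (hM : 1 ≤ M) (hζ : 1 ≤ ζ) (f : Fin ζ × Fin M → Fin n)
    (hf : Function.Injective f) (o : Fin n) (ho : ∀ t, f t ≠ o)
    (q : Fin n → Fin ζ → Fin b) (hq : ∀ t, q (f t) t.1 = q o t.1) :
    avg (fun s : Fin n → Fin ζ → Bool =>
      normSq ((sparseStack (comb s q))ᵀ.mulVec (pv M f o s))) ≤ ζ / M := by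
  have hM' : (0:ℝ) < (M:ℝ) := by exact_mod_cast hM
  have hζ' : (0:ℝ) < (ζ:ℝ) := by exact_mod_cast hζ
  unfold normSq
  rw [avg_sum Finset.univ (fun jc (s : Fin n → Fin ζ → Bool) =>
    ((sparseStack (comb s q))ᵀ.mulVec (pv M f o s)) jc ^ 2), Fintype.sum_prod_type]
  have h1 : ∀ j' : Fin ζ, ∑ c : Fin b, avg (fun s : Fin n → Fin ζ → Bool =>
      ((sparseStack (comb s q))ᵀ.mulVec (pv M f o s)) (j', c) ^ 2) ≤ 1 / M := by
    intro j'
    have h2 : ∀ c : Fin b, avg (fun s : Fin n → Fin ζ → Bool =>
      ((sparseStack (comb s q))ᵀ.mulVec (pv M f o s)) (j', c) ^ 2) =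
        ∑ t : Fin ζ × Fin M, (if t.1 = j' then 0 else
        if q (f t) j' = c then -(1 / ((M:ℝ) * Real.sqrt ζ)) else 0) ^ 2 := by
      intro c
      simp_rw [pv_image hM f o q hq]
      exact avg_sq_sum f hf (fun t => t.1) o ho j' (fun t => if t.1 = j' then 0 else
        if q (f t) j' = c then -(1 / ((M:ℝ) * Real.sqrt ζ)) else 0) (fun t ht => if_pos ht)
    simp_rw [h2]
    rw [Finset.sum_comm]
    have h3 : ∀ t : Fin ζ × Fin M, ∑ c : Fin b, (if t.1 = j' then (0:ℝ) else
        if q (f t) j' = c then -(1 / ((M:ℝ) * Real.sqrt ζ)) else 0) ^ 2 ≤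
        1 / ((M:ℝ) ^ 2 * ζ) := by
      intro t
      by_cases ht : t.1 = j'
      · simp only [if_pos ht]
        have : (0:ℝ) ≤ 1 / ((M:ℝ) ^ 2 * ζ) := by positivity
        simpa using this
      · simp only [if_neg ht]
        rw [Finset.sum_eq_single (q (f t) j')]
        · rw [if_pos rfl]
          apply le_of_eq
          rw [neg_sq, div_pow, mul_pow, Real.sq_sqrt hζ'.le, one_pow]
        · intro c _ hc
          rw [if_neg (Ne.symm hc)]
          norm_num
        · intro h
          exact absurd (Finset.mem_univ _) h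
    refine (Finset.sum_le_sum fun t _ => h3 t).trans ?_
    rw [Finset.sum_const, Finset.card_univ, Fintype.card_prod, Fintype.card_fin, Fintype.card_fin,
      nsmul_eq_mul]
    apply le_of_eq
    push_cast
    field_simp
  refine (Finset.sum_le_sum fun j' _ => h1 j').trans ?_
  rw [Finset.sum_const, Finset.card_univ, Fintype.card_fin, nsmul_eq_mul]
  apply le_of_eq
  ring

lemma pv_center {n ζ M : ℕ} (f : Fin ζ × Fin M → Fin n) (o : Fin n) (ho : ∀ t, f t ≠ o)
    (s : Fin n → Fin ζ → Bool) : pv M f o s o = 1 := by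
  unfold pv
  rw [if_pos rfl, Finset.sum_eq_zero]
  · ring
  · intro t _
    rw [if_neg (Ne.symm (ho t))]

lemma pv_zero {n ζ M : ℕ} (f : Fin ζ × Fin M → Fin n) (o : Fin n) (i : Fin n) (hi : i ≠ o)
    (hf : ∀ t, i ≠ f t) (s : Fin n → Fin ζ → Bool) : pv M f o s i = 0 := by
  unfold pv
  rw [if_neg hi, Finset.sum_eq_zero]
  · ring
  · intro t _
    rw [if_neg (hf t)]

lemma one_le_normSq {n ζ M : ℕ} (f : Fin ζ × Fin M → Fin n) (o : Fin n) (ho : ∀ t, f t ≠ o)
    (s : Fin n → Fin ζ → Bool) : 1 ≤ normSq (pv M f o s) := by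
  unfold normSq
  have := Finset.single_le_sum (f := fun i => pv M f o s i ^ 2) (fun i _ => sq_nonneg _)
    (Finset.mem_univ o)
  simp only [pv_center f o ho s] at this
  linarith

/-- isotropy: the squared length of the sketch is correct on average -/
theorem isotropic {n ζ b : ℕ} (hζ : 1 ≤ ζ) (hb : 1 ≤ b) (x : Fin n → ℝ) :
    avg (fun ω : Outcome n ζ b => normSq ((sparseStack ω)ᵀ.mulVec x)) = normSq x := by
  have : Nonempty (Fin b) := ⟨⟨0, hb⟩⟩
  have hζ' : (0:ℝ) < (ζ:ℝ) := by exact_mod_cast hζ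
  rw [← avg_equiv (combE n ζ b), avg_prod]
  have key : ∀ q : Fin n → Fin ζ → Fin b, avg (fun s : Fin n → Fin ζ → Bool =>
      normSq ((sparseStack (comb s q))ᵀ.mulVec x)) = normSq x := by
    intro q
    unfold normSq
    rw [avg_sum Finset.univ (fun jc (s : Fin n → Fin ζ → Bool) =>
      ((sparseStack (comb s q))ᵀ.mulVec x) jc ^ 2), Fintype.sum_prod_type]
    have h1 : ∀ (j' : Fin ζ) (c : Fin b), avg (fun s : Fin n → Fin ζ → Bool =>
        ((sparseStack (comb s q))ᵀ.mulVec x) (j', c) ^ 2) =
        ∑ i, (if q i j' = c then x i ^ 2 / ζ else 0) := by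
      intro j' c
      have h2 : ∀ s : Fin n → Fin ζ → Bool, ((sparseStack (comb s q))ᵀ.mulVec x) (j', c) ^ 2 =
          ∑ i, ∑ i', ((if q i j' = c then x i / Real.sqrt ζ else 0) *
            (if q i' j' = c then x i' / Real.sqrt ζ else 0)) * (sg (s i j') * sg (s i' j')) := by
        intro s
        have h3 : ((sparseStack (comb s q))ᵀ.mulVec x) (j', c) =
            ∑ i, (if q i j' = c then x i / Real.sqrt ζ else 0) * sg (s i j') := by
          have h0 : ((sparseStack (comb s q))ᵀ.mulVec x) (j', c) =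
            ∑ i, (if q i j' = c then sg (s i j') / Real.sqrt ζ else 0) * x i := rfl
          rw [h0]
          refine Finset.sum_congr rfl fun i _ => ?_
          split_ifs <;> ring
        rw [h3, sq, Finset.sum_mul_sum]
        refine Finset.sum_congr rfl fun t _ => Finset.sum_congr rfl fun t' _ => ?_
        ring
      simp_rw [h2]
      rw [avg_sum Finset.univ (fun i (s : Fin n → Fin ζ → Bool) =>
        ∑ i', ((if q i j' = c then x i / Real.sqrt ζ else 0) *
            (if q i' j' = c then x i' / Real.sqrt ζ else 0)) * (sg (s i j') * sg (s i' j')))]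
      refine Finset.sum_congr rfl fun i _ => ?_
      rw [avg_sum Finset.univ (fun i' (s : Fin n → Fin ζ → Bool) =>
        ((if q i j' = c then x i / Real.sqrt ζ else 0) *
            (if q i' j' = c then x i' / Real.sqrt ζ else 0)) * (sg (s i j') * sg (s i' j')))]
      rw [Finset.sum_eq_single i]
      · simp_rw [sg_sq]
        rw [avg_const]
        split_ifs
        · have := Real.mul_self_sqrt hζ'.le
          field_simp
          rw [Real.sq_sqrt hζ'.le]
        · ring
      · intro i' _ hi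
        apply avg_flip_zero (flipE i j')
        intro s
        have e1 : (flipE i j') s i j' = !(s i j') := flip_same _ _ _
        have e2 : (flipE i j') s i' j' = s i' j' := flip_ne _ _ _ _ _ (fun h => hi h.1)
        rw [e1, e2, sg_not]
        ring
      · intro h
        exact absurd (Finset.mem_univ _) h
    simp_rw [h1]
    have h4 : ∀ j' : Fin ζ, ∑ c : Fin b, ∑ i, (if q i j' = c then x i ^ 2 / (ζ:ℝ) else 0) =
        ∑ i, x i ^ 2 / (ζ:ℝ) := by
      intro j'
      rw [Finset.sum_comm]
      refine Finset.sum_congr rfl fun i _ => ?_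
      simp
    simp_rw [h4]
    rw [Finset.sum_const, Finset.card_univ, Fintype.card_fin, nsmul_eq_mul, Finset.mul_sum]
    refine Finset.sum_congr rfl fun i _ => ?_
    field_simp
  have : (fun q : Fin n → Fin ζ → Fin b => avg (fun s : Fin n → Fin ζ → Bool =>
      normSq ((sparseStack (combE n ζ b (q, s)))ᵀ.mulVec x))) = fun _ => normSq x := by
    funext q
    exact key q
  rw [this]
  exact avg_const _

end Pool.Agent.H998R2.OsiCore
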