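import Mathlib
import Pool.Agent.H998R2.OsiCore

set_option autoImplicit false

/-!
# SparseStacks with few nonzeros per row are not oblivious subspace injections
-/

namespace Pool.Agent.H998R2.OsiMain

open Finset Matrix Pool.Agent.H998R2.Avg Pool.Agent.H998R2.Pocket Pool.Agent.H998R2.Signs
  Pool.Agent.H998R2.OsiDefs Pool.Agent.H998R2.OsiCore

/-- extension by zero of the first `r` coordinates -/
noncomputable def ext0 {n r : ℕ} (h : r ≤ n) : (Fin r → ℝ) →ₗ[ℝ] (Fin n → ℝ) :=
  Function.ExtendByZero.linearMap ℝ (Fin.castLE h)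

lemma ext0_apply {n r : ℕ} (h : r ≤ n) (y : Fin r → ℝ) (i : Fin r) :
    ext0 h y (Fin.castLE h i) = y i := by
  unfold ext0
  simp only [Function.ExtendByZero.linearMap_apply]
  exact (Fin.castLE_injective h).extend_apply _ _ _

lemma ext0_inj {n r : ℕ} (h : r ≤ n) : Function.Injective (ext0 h) := by
  intro y z hyz
  funext i
  have := congrFun hyz (Fin.castLE h i)
  rwa [ext0_apply, ext0_apply] at this

/-- the span of the first `r` coordinate vectors -/
noncomputable def V0 {n r : ℕ} (h : r ≤ n) : Submodule ℝ (Fin n → ℝ) := LinearMap.range (ext0 h)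

lemma finrank_V0 {n r : ℕ} (h : r ≤ n) : Module.finrank ℝ (V0 h) = r := by
  unfold V0
  rw [LinearMap.finrank_range_of_inj (ext0_inj h)]
  simp

lemma mem_V0 {n r : ℕ} (h : r ≤ n) (x : Fin n → ℝ) (hx : ∀ i : Fin n, r ≤ i.val → x i = 0) :
    x ∈ V0 h := by
  refine ⟨fun i => x (Fin.castLE h i), ?_⟩
  funext i
  by_cases hi : i.val < r
  · have : i = Fin.castLE h ⟨i.val, hi⟩ := by ext; simp
    rw [this, ext0_apply]
  · rw [hx i (by omega)]
    unfold ext0
    simp only [Function.ExtendByZero.linearMap_apply]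
    rw [Function.extend_apply' _ _ _ (by
      rintro ⟨j, hj⟩
      have := congrArg Fin.val hj
      simp at this
      omega)]
    rfl

lemma prob_eq_avg {n ζ b : ℕ} (S : Set (Outcome n ζ b)) [DecidablePred (· ∈ S)] :
    prob S = avg (fun ω => ind (ω ∈ S)) := by
  unfold prob avg ind
  rw [Nat.card_eq_fintype_card, Nat.card_eq_fintype_card, Fintype.card_subtype]
  simp

/-- if there are fewer columns than the dimension, injectivity fails surely -/
lemma prob_small {n ζ b r : ℕ} (h : r ≤ n) (hk : b * ζ < r) (α : ℝ) (hα : 0 < α) :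
    prob {ω : Outcome n ζ b | InjectiveOn ω (V0 h) α} = 0 := by
  have : {ω : Outcome n ζ b | InjectiveOn ω (V0 h) α} = ∅ := by
    rw [Set.eq_empty_iff_forall_notMem]
    intro ω hω
    have hω' : InjectiveOn ω (V0 h) α := hω
    let L : (Fin r → ℝ) →ₗ[ℝ] (Fin ζ × Fin b → ℝ) := (sparseStack ω)ᵀ.mulVecLin ∘ₗ ext0 h
    have hker : LinearMap.ker L ≠ ⊥ := by
      apply LinearMap.ker_ne_bot_of_finrank_lt
      simp only [Module.finrank_fintype_fun_eq_card, Fintype.card_prod, Fintype.card_fin]
      rw [mul_comm]; exact hk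
    obtain ⟨y, hy, hy0⟩ := (Submodule.ne_bot_iff _).1 hker
    have h1 := hω' (ext0 h y) ⟨y, rfl⟩
    have h2 : (sparseStack ω)ᵀ.mulVec (ext0 h y) = 0 := by
      have := LinearMap.mem_ker.1 hy
      exact this
    rw [h2] at h1
    have h3 : normSq (0 : Fin ζ × Fin b → ℝ) = 0 := by
      unfold normSq; simp
    rw [h3] at h1
    have h4 : 0 < normSq (ext0 h y) := by
      have hne : ∃ i, y i ≠ 0 := by
        by_contra hno
        push Not at hno
        exact hy0 (funext hno)
      obtain ⟨i, hi⟩ := hne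
      have h5 := Finset.single_le_sum (f := fun i => ext0 h y i ^ 2) (fun i _ => sq_nonneg _)
        (Finset.mem_univ (Fin.castLE h i))
      simp only [ext0_apply] at h5
      have h6 : 0 < y i ^ 2 := by positivity
      unfold normSq
      linarith
    nlinarith
  rw [this]
  unfold prob
  simp

lemma avg_pos_split {n ζ b : ℕ} (g : Outcome n ζ b → ℝ) :
    avg g = avg (fun q : Fin n → Fin ζ → Fin b =>
      avg (fun s : Fin n → Fin ζ → Bool => g (comb s q))) := by
  rw [← avg_equiv (combE n ζ b), avg_prod]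
  rfl

/-- the key estimate -/
lemma avg_inj {n ζ b r K M m : ℕ} (h : r ≤ n) (hM : 1 ≤ M) (hζ : 1 ≤ ζ) (hb : 1 ≤ b)
    (α : ℝ) (hα : 0 < α) (hsize : K + ζ * M * m ≤ r)
    [∀ ω : Outcome n ζ b, Decidable (InjectiveOn ω (V0 h) α)] :
    avg (fun ω : Outcome n ζ b => ind (InjectiveOn ω (V0 h) α)) ≤
      avg (fun y : J ζ M K m → Fin b => ind (∀ κ : Fin K, ¬ Rich y κ)) + ζ / (M * α) := by
  classical
  have : Nonempty (Fin b) := ⟨⟨0, hb⟩⟩
  have hM' : (0:ℝ) < M := by exact_mod_cast hM
  have hcard : Fintype.card (Fin K ⊕ ((Fin ζ × Fin M) × Fin m)) ≤ Fintype.card (Fin r) := by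
    simp only [Fintype.card_sum, Fintype.card_prod, Fintype.card_fin]
    exact hsize
  obtain ⟨e⟩ := Function.Embedding.nonempty_of_card_le hcard
  let cen : Fin K → Fin n := fun κ => Fin.castLE h (e (Sum.inl κ))
  let fil : (Fin ζ × Fin M) × Fin m → Fin n := fun tu => Fin.castLE h (e (Sum.inr tu))
  have hcen : Function.Injective cen := fun a b hab =>
    Sum.inl_injective (e.injective (Fin.castLE_injective h hab))
  have hfil : Function.Injective fil := fun a b hab =>
    Sum.inr_injective (e.injective (Fin.castLE_injective h hab))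
  have hcf : ∀ tu κ, fil tu ≠ cen κ := by
    intro tu κ hab
    have := e.injective (Fin.castLE_injective h hab)
    cases this
  let a : J ζ M K m → Fin n × Fin ζ := fun x => match x with
    | Sum.inl (κ, j) => (cen κ, j)
    | Sum.inr (t, u) => (fil (t, u), t.1)
  have ha : Function.Injective a := by
    rintro (⟨κ, j⟩ | ⟨t, u⟩) (⟨κ', j'⟩ | ⟨t', u'⟩) hxy
    · simp only [a, Prod.mk.injEq] at hxy
      rw [hcen hxy.1, hxy.2]
    · simp only [a, Prod.mk.injEq] at hxy
      exact absurd hxy.1.symm (hcf _ _)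
    · simp only [a, Prod.mk.injEq] at hxy
      exact absurd hxy.1 (hcf _ _)
    · simp only [a, Prod.mk.injEq] at hxy
      rw [hfil hxy.1]
  -- the event, in terms of the positions
  let yq : (Fin n → Fin ζ → Fin b) → (J ζ M K m → Fin b) := fun q x => q (a x).1 (a x).2
  have hpush : avg (fun q : Fin n → Fin ζ → Fin b => ind (∀ κ : Fin K, ¬ Rich (yq q) κ)) =
      avg (fun y : J ζ M K m → Fin b => ind (∀ κ : Fin K, ¬ Rich y κ)) := by
    rw [← avg_restrict (I := Fin n × Fin ζ) a ha
      (fun y : J ζ M K m → Fin b => ind (∀ κ : Fin K, ¬ Rich y κ)),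
      ← avg_equiv (Equiv.curry (Fin n) (Fin ζ) (Fin b))]
    rfl
  rw [← hpush, avg_pos_split]
  have hmain : ∀ q : Fin n → Fin ζ → Fin b,
      avg (fun s : Fin n → Fin ζ → Bool => ind (InjectiveOn (comb s q) (V0 h) α)) ≤
        ind (∀ κ : Fin K, ¬ Rich (yq q) κ) + ζ / (M * α) := by
    intro q
    by_cases hr : ∀ κ : Fin K, ¬ Rich (yq q) κ
    · have h1 : ind (∀ κ : Fin K, ¬ Rich (yq q) κ) = 1 := by unfold ind; rw [if_pos hr]
      rw [h1]
      have h2 : avg (fun s : Fin n → Fin ζ → Bool => ind (InjectiveOn (comb s q) (V0 h) α)) ≤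
          avg (fun _ : Fin n → Fin ζ → Bool => (1:ℝ)) := avg_mono fun s => ind_le_one _
      rw [avg_const] at h2
      have h3 : (0:ℝ) ≤ ζ / (M * α) := by positivity
      linarith
    · have h1 : ind (∀ κ : Fin K, ¬ Rich (yq q) κ) = 0 := by unfold ind; rw [if_neg hr]
      rw [h1, zero_add]
      push Not at hr
      obtain ⟨κ, hκ⟩ := hr
      choose u hu using hκ
      let f : Fin ζ × Fin M → Fin n := fun t => fil (t, u t)
      have hf : Function.Injective f := fun t t' htt =>
        (Prod.ext_iff.1 (hfil htt)).1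
      have ho : ∀ t, f t ≠ cen κ := fun t => hcf _ _
      have hq : ∀ t, q (f t) t.1 = q (cen κ) t.1 := fun t => hu t
      have hV : ∀ s, pv M f (cen κ) s ∈ V0 h := by
        intro s
        apply mem_V0
        intro i hi
        apply pv_zero
        · intro hic
          have := congrArg Fin.val hic
          have h5 := (e (Sum.inl κ)).isLt
          simp only [cen, Fin.val_castLE] at this
          omega
        · intro t hic
          have := congrArg Fin.val hic
          have h5 := (e (Sum.inr (t, u t))).isLt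
          simp only [f, fil, Fin.val_castLE] at this
          omega
      have h2 : ∀ s : Fin n → Fin ζ → Bool, ind (InjectiveOn (comb s q) (V0 h) α) ≤
          (1 / α) * normSq ((sparseStack (comb s q))ᵀ.mulVec (pv M f (cen κ) s)) := by
        intro s
        have hnn : 0 ≤ normSq ((sparseStack (comb s q))ᵀ.mulVec (pv M f (cen κ) s)) :=
          Finset.sum_nonneg fun i _ => sq_nonneg _
        by_cases hI : InjectiveOn (comb s q) (V0 h) α
        · have h3 := hI _ (hV s)
          have h4 := one_le_normSq f (cen κ) ho s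
          have h5 : α ≤ normSq ((sparseStack (comb s q))ᵀ.mulVec (pv M f (cen κ) s)) := by
            nlinarith
          unfold ind
          rw [if_pos hI]
          rw [one_div, inv_mul_eq_div, le_div_iff₀ hα]
          linarith
        · unfold ind
          rw [if_neg hI]
          positivity
      refine (avg_mono h2).trans ?_
      rw [avg_mul_left]
      have h3 := avg_image hM hζ f hf (cen κ) ho q hq
      calc 1 / α * avg (fun s : Fin n → Fin ζ → Bool =>
            normSq ((sparseStack (comb s q))ᵀ.mulVec (pv M f (cen κ) s))) ≤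
          1 / α * (ζ / M) := mul_le_mul_of_nonneg_left h3 (by positivity)
        _ = ζ / (M * α) := by field_simp
  refine (avg_mono hmain).trans ?_
  rw [avg_add, avg_const]

lemma hit_lower {m b : ℕ} (hb : 1 ≤ b) (t : ℝ) (ht0 : 0 ≤ t) (ht1 : t ≤ 1)
    (ht : t ≤ (m:ℝ) / b) : t / 2 ≤ hit m b := by
  have hb' : (1:ℝ) ≤ b := by exact_mod_cast hb
  have h1 : (0:ℝ) ≤ 1 - 1 / (b:ℝ) := by
    rw [sub_nonneg, div_le_one (by linarith)]; exact hb'
  have h2 : 1 - 1 / (b:ℝ) ≤ Real.exp (-(1 / (b:ℝ))) := Real.one_sub_le_exp_neg _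
  have h3 : (1 - 1 / (b:ℝ)) ^ m ≤ Real.exp (-t) := by
    refine (pow_le_pow_left₀ h1 h2 m).trans ?_
    rw [← Real.exp_nat_mul]
    apply Real.exp_le_exp.2
    have : (m:ℝ) * -(1 / (b:ℝ)) = -((m:ℝ) / b) := by ring
    rw [this]
    linarith
  have h4 : Real.exp (-t) ≤ 1 - t / 2 := by
    rw [Real.exp_neg]
    have h5 : 1 + t ≤ Real.exp t := by linarith [Real.add_one_le_exp t]
    have h6 : (Real.exp t)⁻¹ ≤ (1 + t)⁻¹ := inv_anti₀ (by linarith) h5
    refine h6.trans ?_
    rw [inv_le_iff_one_le_mul₀ (by linarith)]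
    nlinarith
  unfold hit
  linarith

end Pool.Agent.H998R2.OsiMain
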