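import Mathlib
import Pool.Agent.H998R2.OsiMain

set_option autoImplicit false

/-!
# Choice of the parameters
-/

namespace Pool.Agent.H998R2.OsiNum

open Finset Matrix Pool.Agent.H998R2.Avg Pool.Agent.H998R2.Pocket Pool.Agent.H998R2.Signs
  Pool.Agent.H998R2.OsiDefs Pool.Agent.H998R2.OsiCore Pool.Agent.H998R2.OsiMain

theorem core {n r ζ b A : ℕ} (C α η : ℝ) (hC : 1 ≤ C) (hα : 0 < α) (hη : 0 < η) (hη1 : η ≤ 1)
    (hA1 : 1 ≤ A) (hA : 2 / (α * η) ≤ A) (hζ : 1 ≤ ζ) (hb : 1 ≤ b) (hrn : r ≤ n)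
    (hk : r ≤ b * ζ) (hkC : ((b * ζ : ℕ) : ℝ) ≤ C * r)
    (hr : 20 * (ζ:ℝ) ^ 2 * ((4 * A * C * ζ) ^ (A * ζ ^ 2)) ^ 2 / η ≤ r) :
    prob {ω : Outcome n ζ b | InjectiveOn ω (V0 hrn) α} < η := by
  classical
  have hζ' : (1:ℝ) ≤ ζ := by exact_mod_cast hζ
  have hb' : (1:ℝ) ≤ b := by exact_mod_cast hb
  have hA' : (1:ℝ) ≤ A := by exact_mod_cast hA1
  set N : ℕ := A * ζ ^ 2 with hN
  set Q : ℝ := 4 * A * C * ζ with hQ
  set P : ℝ := Q ^ N with hP
  have hAC : (1:ℝ) ≤ A * C := by nlinarith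
  have hACζ : (1:ℝ) ≤ A * C * ζ := by nlinarith
  have hQ4 : 4 ≤ Q := by rw [hQ]; nlinarith
  have hN1 : 1 ≤ N := by
    rw [hN]
    exact Nat.mul_pos hA1 (by positivity)
  have hPN : (N:ℝ) ≤ P := by
    have h1 : (N:ℝ) < 4 ^ N := by
      exact_mod_cast (Nat.lt_pow_self (by norm_num : 1 < 4) : N < 4 ^ N)
    have h2 : (4:ℝ) ^ N ≤ Q ^ N := pow_le_pow_left₀ (by norm_num) hQ4 N
    linarith
  have hN1' : (1:ℝ) ≤ N := by exact_mod_cast hN1
  have hP1 : 1 ≤ P := le_trans hN1' hPN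
  have hP0 : 0 < P := by linarith
  -- sizes
  have hr20 : 20 * P / η ≤ r := by
    refine le_trans ?_ hr
    apply div_le_div_of_nonneg_right _ hη.le
    have h1 : (1:ℝ) ≤ (ζ:ℝ) ^ 2 := by nlinarith
    have h2 : P ≤ P ^ 2 := by nlinarith
    nlinarith
  have hr2 : 20 * (ζ:ℝ) ^ 2 * P ^ 2 ≤ η * r := by
    rw [div_le_iff₀ hη] at hr
    linarith
  have hPη : P ≤ P / η := by
    rw [le_div_iff₀ hη]
    nlinarith
  have hrP : 20 * (P / η) ≤ r := by
    have : 20 * (P / η) = 20 * P / η := by ring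
    rw [this]; exact hr20
  set K : ℕ := ⌈4 * P / η⌉₊ with hK
  have hK1 : 4 * P / η ≤ K := Nat.le_ceil _
  have hK2 : (K:ℝ) ≤ 5 * (P / η) := by
    have h1 : (K:ℝ) < 4 * P / η + 1 := Nat.ceil_lt_add_one (by positivity)
    have h2 : 4 * P / η = 4 * (P / η) := by ring
    rw [h2] at h1
    linarith
  have hK0 : (0:ℝ) < K := lt_of_lt_of_le (by positivity) hK1
  set M : ℕ := A * ζ with hM
  have hM1 : 1 ≤ M := Nat.mul_pos hA1 hζ
  have hM' : (1:ℝ) ≤ M := by exact_mod_cast hM1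
  have hζM : ζ * M = N := by rw [hM, hN]; ring
  have hζM' : (ζ:ℝ) * M = N := by exact_mod_cast hζM
  have hKr : (K:ℝ) + N ≤ r / 2 := by linarith
  have hKr' : K ≤ r := by
    have : (K:ℝ) ≤ r := by
      have : (0:ℝ) ≤ r := by positivity
      linarith
    exact_mod_cast this
  set m : ℕ := (r - K) / (ζ * M) with hm
  have hsize : K + ζ * M * m ≤ r := by
    have h1 : ζ * M * m ≤ r - K := Nat.mul_div_le (r - K) (ζ * M)
    omega
  have hr0 : (0:ℝ) < r := by
    have : (0:ℝ) < P / η := by positivity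
    linarith
  -- the number of balls
  have hmlow : (r:ℝ) / 2 ≤ N * m := by
    have h0 : 0 < ζ * M := by rw [hζM]; omega
    have h1 : r - K < ζ * M * ((r - K) / (ζ * M) + 1) := Nat.lt_mul_div_succ _ h0
    rw [← hm, hζM, mul_add_one] at h1
    have h2 : r < N * m + N + K := by omega
    have h3 : (r:ℝ) < N * m + N + K := by exact_mod_cast h2
    linarith
  have hkC' : (b:ℝ) * ζ ≤ C * r := by exact_mod_cast hkC
  set t : ℝ := 1 / (2 * M * C) with ht
  have hMC : (1:ℝ) ≤ M * C := by nlinarith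
  have ht0 : 0 ≤ t := by rw [ht]; positivity
  have ht1 : t ≤ 1 := by
    rw [ht, div_le_one (by positivity)]
    linarith
  have htm : t ≤ (m:ℝ) / b := by
    rw [ht, div_le_div_iff₀ (by positivity) (by linarith)]
    -- b ≤ m * (2 M C)
    have h1 : (b:ℝ) * ζ ≤ C * (2 * (N * m)) := by nlinarith
    have h2 : (b:ℝ) * ζ ≤ (m * (2 * M * C)) * ζ := by
      rw [← hζM'] at h1
      calc (b:ℝ) * ζ ≤ C * (2 * (ζ * M * m)) := h1
        _ = (m * (2 * M * C)) * ζ := by ring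
    have h3 := le_of_mul_le_mul_right h2 (by linarith : (0:ℝ) < ζ)
    linarith
  have hhit := hit_lower (m := m) hb t ht0 ht1 htm
  have hhit2 : Q⁻¹ ≤ hit m b := by
    refine le_trans (le_of_eq ?_) hhit
    rw [ht, hQ, hM]
    push_cast
    field_simp
    ring
  set p : ℝ := hit m b ^ (ζ * M) with hp
  have hpP : P⁻¹ ≤ p := by
    rw [hp, hP, ← inv_pow, hζM]
    exact pow_le_pow_left₀ (by positivity) hhit2 N
  have hp0 : 0 < p := lt_of_lt_of_le (by positivity) hpP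
  have hpinv : p⁻¹ ≤ P := by
    rw [inv_le_comm₀ hp0 hP0]
    exact hpP
  -- second moment
  have hcheb := avg_norich (ζ := ζ) (M := M) (K := K) (m := m) hb
  rw [← hp] at hcheb
  set pr := avg (fun y : J ζ M K m → Fin b => ind (∀ κ : Fin K, ¬ Rich y κ)) with hpr
  have hpr1 : pr ≤ p⁻¹ / K + (ζ / b) * (p⁻¹) ^ 2 := by
    have h1 : (0:ℝ) < (K * p) ^ 2 := by positivity
    have h2 : pr ≤ (K * p + K ^ 2 * (ζ / b)) / (K * p) ^ 2 := by
      rw [le_div_iff₀ h1]
      linarith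
    refine h2.trans (le_of_eq ?_)
    field_simp
  have hb0 : (0:ℝ) < b := by linarith
  have hpr2 : pr ≤ η / 4 + η / 20 := by
    refine hpr1.trans ?_
    apply add_le_add
    · rw [div_le_iff₀ hK0]
      have h1 : 4 * P / η * η = 4 * P := by field_simp
      have h2 : 4 * P ≤ K * η := by
        rw [← h1]
        exact mul_le_mul_of_nonneg_right hK1 hη.le
      linarith
    · have h1 : (p⁻¹) ^ 2 ≤ P ^ 2 := pow_le_pow_left₀ (by positivity) hpinv 2
      have h2 : (ζ:ℝ) / b ≤ (ζ:ℝ) ^ 2 / r := by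
        rw [div_le_div_iff₀ hb0 hr0]
        have h3 : (r:ℝ) ≤ b * ζ := by exact_mod_cast hk
        nlinarith
      calc (ζ:ℝ) / b * (p⁻¹) ^ 2 ≤ ((ζ:ℝ) ^ 2 / r) * P ^ 2 :=
            mul_le_mul h2 h1 (by positivity) (by positivity)
        _ = ((ζ:ℝ) ^ 2 * P ^ 2) / r := by ring
        _ ≤ η / 20 := by
            rw [div_le_iff₀ hr0]
            linarith
  have hfin := avg_inj (n := n) (ζ := ζ) (b := b) (r := r) (K := K) (M := M) (m := m)
    hrn hM1 hζ hb α hα hsize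
  rw [prob_eq_avg]
  refine lt_of_le_of_lt (b := pr + ζ / (M * α)) hfin ?_
  have h5 : (ζ:ℝ) / (M * α) ≤ η / 2 := by
    have hMe : (M:ℝ) = A * ζ := by rw [hM]; push_cast; ring
    rw [hMe]
    have h6 : (ζ:ℝ) / (A * ζ * α) = 1 / (A * α) := by field_simp
    rw [h6, div_le_iff₀ (by positivity)]
    rw [div_le_iff₀ (by positivity)] at hA
    linarith
  linarith

/-- **Lower bound for the sparsity**, quantitative form. -/
theorem main (C α δ : ℝ) (hα : 0 < α) (hδ : δ < 1) :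
    ∃ c : ℝ, 0 < c ∧ ∃ r₀ : ℕ, ∀ r : ℕ, r₀ ≤ r → ∀ n : ℕ, r ≤ n → ∀ ζ b : ℕ, 1 ≤ ζ → 1 ≤ b →
      (ζ:ℝ) ^ 2 * Real.log (ζ + 1) ≤ c * Real.log r → ((b * ζ : ℕ) : ℝ) ≤ C * r →
      ¬ IsOSI n ζ b r α δ := by
  set η : ℝ := min (1 - δ) 1 with hη
  have hη0 : 0 < η := lt_min (by linarith) one_pos
  have hη1 : η ≤ 1 := min_le_right _ _
  have hηδ : η ≤ 1 - δ := min_le_left _ _
  set C' : ℝ := max C 1 with hC'
  have hC1 : 1 ≤ C' := le_max_right _ _
  set A : ℕ := ⌈2 / (α * η)⌉₊ + 1 with hA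
  have hA1 : 1 ≤ A := by omega
  have hA2 : 2 / (α * η) ≤ A := by
    have := Nat.le_ceil (2 / (α * η))
    rw [hA]
    push_cast
    linarith
  have hA' : (1:ℝ) ≤ A := by exact_mod_cast hA1
  have hl2 : 0 < Real.log 2 := Real.log_pos (by norm_num)
  set B : ℝ := 2 + 2 * A * (Real.log (4 * A * C') / Real.log 2 + 1) with hB
  have h4 : (1:ℝ) ≤ 4 * A * C' := by nlinarith
  have hl4 : 0 ≤ Real.log (4 * A * C') := Real.log_nonneg h4
  have hB0 : 0 < B := by rw [hB]; positivity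
  refine ⟨1 / (2 * B), by positivity, ⌈(20 / η) ^ 2⌉₊ + 1, ?_⟩
  intro r hr n hrn ζ b hζ hb hζr hkC hosi
  have hζ' : (1:ℝ) ≤ ζ := by exact_mod_cast hζ
  have hr1 : (20 / η) ^ 2 ≤ r := by
    have h1 := Nat.le_ceil ((20 / η) ^ 2)
    have h2 : ((⌈(20 / η) ^ 2⌉₊ + 1 : ℕ) : ℝ) ≤ r := by exact_mod_cast hr
    push_cast at h2
    linarith
  have hr0 : (0:ℝ) < r := lt_of_lt_of_le (by positivity) hr1
  have h := hosi (V0 hrn) (finrank_V0 hrn)
  by_cases hk : r ≤ b * ζ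
  · have hkC' : ((b * ζ : ℕ) : ℝ) ≤ C' * r :=
      hkC.trans (mul_le_mul_of_nonneg_right (le_max_left _ _) hr0.le)
    have hcore := core (n := n) (r := r) (ζ := ζ) (b := b) (A := A) C' α η hC1 hα hη0 hη1 hA1 hA2
      hζ hb hrn hk hkC' ?_
    · linarith
    · set Q : ℝ := 4 * A * C' * ζ with hQ
      have hQ1 : 1 ≤ Q := by rw [hQ]; nlinarith
      have hX : (0:ℝ) < 20 * (ζ:ℝ) ^ 2 * (Q ^ (A * ζ ^ 2)) ^ 2 / η := by positivity
      rw [← Real.log_le_log_iff hX hr0]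
      have e1 : 20 * (ζ:ℝ) ^ 2 * (Q ^ (A * ζ ^ 2)) ^ 2 / η =
          (20 / η) * ((ζ:ℝ) ^ 2 * (Q ^ (A * ζ ^ 2)) ^ 2) := by ring
      rw [e1, Real.log_mul (by positivity) (by positivity),
        Real.log_mul (by positivity) (by positivity), Real.log_pow, Real.log_pow, Real.log_pow]
      push_cast
      have hL : Real.log 2 ≤ Real.log (ζ + 1) := Real.log_le_log (by norm_num) (by linarith)
      have hLζ : Real.log ζ ≤ Real.log (ζ + 1) := Real.log_le_log (by linarith) (by linarith)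
      set L : ℝ := Real.log (ζ + 1) with hLdef
      have hL0 : 0 < L := lt_of_lt_of_le hl2 hL
      have e2 : Real.log Q = Real.log (4 * A * C') + Real.log ζ := by
        rw [hQ, Real.log_mul (by positivity) (by positivity)]
      have h5 : Real.log (4 * A * C') ≤ Real.log (4 * A * C') / Real.log 2 * L := by
        have : Real.log (4 * A * C') = Real.log (4 * A * C') / Real.log 2 * Real.log 2 := by
          field_simp
        calc Real.log (4 * A * C') = Real.log (4 * A * C') / Real.log 2 * Real.log 2 := this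
          _ ≤ _ := mul_le_mul_of_nonneg_left hL (by positivity)
      have h6 : Real.log Q ≤ (Real.log (4 * A * C') / Real.log 2 + 1) * L := by
        rw [e2]
        linarith
      have h7 : 2 * Real.log ζ ≤ 2 * ((ζ:ℝ) ^ 2 * L) := by
        have : (1:ℝ) ≤ (ζ:ℝ) ^ 2 := by nlinarith
        nlinarith
      have h8 : 2 * ((A * (ζ:ℝ) ^ 2) * Real.log Q) ≤
          2 * A * (Real.log (4 * A * C') / Real.log 2 + 1) * ((ζ:ℝ) ^ 2 * L) := by
        have := mul_le_mul_of_nonneg_left h6 (by positivity : (0:ℝ) ≤ 2 * (A * (ζ:ℝ) ^ 2))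
        calc 2 * ((A * (ζ:ℝ) ^ 2) * Real.log Q) = 2 * (A * (ζ:ℝ) ^ 2) * Real.log Q := by ring
          _ ≤ _ := this
          _ = _ := by ring
      have h9 : B * ((ζ:ℝ) ^ 2 * L) ≤ (1 / 2) * Real.log r := by
        have := mul_le_mul_of_nonneg_left hζr hB0.le
        calc B * ((ζ:ℝ) ^ 2 * L) ≤ B * (1 / (2 * B) * Real.log r) := this
          _ = (1 / 2) * Real.log r := by field_simp
      have h10 : 2 * Real.log (20 / η) ≤ Real.log r := by
        have := Real.log_le_log (by positivity) hr1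
        rw [Real.log_pow] at this
        push_cast at this
        exact this
      have h11 : B * ((ζ:ℝ) ^ 2 * L) = 2 * ((ζ:ℝ) ^ 2 * L) +
          2 * A * (Real.log (4 * A * C') / Real.log 2 + 1) * ((ζ:ℝ) ^ 2 * L) := by
        rw [hB]; ring
      linarith
  · rw [prob_small hrn (by omega) α hα] at h
    linarith

end Pool.Agent.H998R2.OsiNum
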